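import Pool.Agent.NNe.Chk
import Pool.Agent.NNe.Slots

set_option linter.all false
set_option maxRecDepth 1000000
namespace Pool.Agent.NNr.R11_3_10_14

open Pool.Agent.NNe

noncomputable def SI0_0 : Nat := (nat_lit 0xc030080200802004010040100401004000000000000)
noncomputable def SW0_0 : Nat := (nat_lit 0x160040050024010003008803c01c00d00380180040100060014002000)
noncomputable def RV0_0 : Nat := (nat_lit 0x880ca08801708803318201e10000808803a08805e08804f18202510000d20400e18202808805408808408809108809a204000182000)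
noncomputable def CO0_0 : Nat := (nat_lit 0x297840290c40255840255810255800251c4016ac40166440166410166400156820156810152c4012b04012744011784011002011001)
noncomputable def Y0_0_0_1 : Nat := (nat_lit 0xe000000000030000000000380000000000c000000000fe0000000007300000000034800000000000000000000f600000000073)
noncomputable def Y0_0_2_3 : Nat := (nat_lit 0x180000000000c0000000000600000000003000000000018000000000000000000000600000000003)
noncomputable def C0_0 : Cd := (Cd.mk (nat_lit 18) (nat_lit 5) (nat_lit 320) SI0_0 SW0_0 RV0_0 CO0_0 (Sl.cons (Sd.mk (nat_lit 4) (nat_lit 4) (nat_lit 0) (nat_lit 5) (Sb.cons (nat_lit 4) (nat_lit 0) (nat_lit 3) (Sb.cons (nat_lit 8) (nat_lit 3) (nat_lit 2) Sb.nil)) (Bl.r Y0_0_0_1 (nat_lit 1) Bl.nil)) (Sl.cons (Sd.mk (nat_lit 5) (nat_lit 4) (nat_lit 5) (nat_lit 7) (Sb.cons (nat_lit 4) (nat_lit 0) (nat_lit 3) (Sb.cons (nat_lit 8) (nat_lit 3) (nat_lit 4) Sb.nil)) (Bl.c Y0_0_0_1 (nat_lit 10) (nat_lit 0) Bl.nil)) (Sl.cons (Sd.mk (nat_lit 9) (nat_lit 8) (nat_lit 12) (nat_lit 4) (Sb.cons (nat_lit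 4) (nat_lit 0) (nat_lit 4) Sb.nil) (Bl.r Y0_0_2_3 (nat_lit 3) Bl.nil)) (Sl.cons (Sd.mk (nat_lit 10) (nat_lit 8) (nat_lit 16) (nat_lit 2) (Sb.cons (nat_lit 4) (nat_lit 0) (nat_lit 2) Sb.nil) (Bl.c Y0_0_2_3 (nat_lit 8) (nat_lit 2) Bl.nil)) Sl.nil)))))
noncomputable def SI0_1 : Nat := (nat_lit 0x1405014050140501405014040100401004010040100400c0300c0300c0300c0300c02008020080200802008010040100401004010040100000000000000000000)
noncomputable def SW0_1 : Nat := (nat_lit 0x1980c805402100c004001e00e00380c4052028010007c03c0170068018060027013009403a01c00b003000a02f012006c02a014005801000602e01680b004601a009802801200201580880320120088020002000)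
noncomputable def RV0_1 : Nat := (nat_lit 0x2040061820090880c20880cb08801808801120400918200e08801408804618201c10000608803418201f10000908803b08804308803708805f08805018202610000e20400f18202908805508805c08805208808508809208809b2040011820010880a308800018200308806720401218202c0880bd0880c608807020401618203208806d08807f08808c08809688802398201108809e982014900000)
noncomputable def CO0_1 : Nat := (nat_lit 0x2a80202a80102a7440297840290c40288840288820288810280c40269c40265410265400255840255810255800251c40249c40241c4016ac40166440166410166400156820156810152c4014ac40142c4012b04012744011784011002011001010b8401004401004100aa0400aa0200aa0100a7440097840092c4008a82008a810082c4002b04002744001784001104001101000b84000141000140)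
noncomputable def Y0_1_1_0 : Nat := (nat_lit 0x1fe000000000600000000007a000000000040000000001ea000000000010000000007f800000000044000000001fe000000000010000000007f800000000100000000001e00000000001000000000078000000000000000000001f000000000040)
noncomputable def Y0_1_2_3 : Nat := (nat_lit 0xff800000000000000000003fe00000000020000000000f18000000000800000000030600000000183000000000d1800000000000000000003fe00000000000000000000ff8000000000c00000000034e00000000000)
noncomputable def Y0_1_4_5 : Nat := (nat_lit 0x7e000000000000000000001c800000000000000000000760000000001b000000000ff800000000000000000000f2000000000000000000007d80000000006c000000003fe00000000000000000000ff800000000000000000003fe00000000000)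
noncomputable def C0_1 : Cd := (Cd.mk (nat_lit 52) (nat_lit 6) (nat_lit 546) SI0_1 SW0_1 RV0_1 CO0_1 (Sl.cons (Sd.mk (nat_lit 0) (nat_lit 0) (nat_lit 0) (nat_lit 8) (Sb.cons (nat_lit 0) (nat_lit 0) (nat_lit 3) (Sb.cons (nat_lit 4) (nat_lit 3) (nat_lit 3) (Sb.cons (nat_lit 8) (nat_lit 6) (nat_lit 2) Sb.nil))) (Bl.c Y0_1_1_0 (nat_lit 18) (nat_lit 1) Bl.nil)) (Sl.cons (Sd.mk (nat_lit 2) (nat_lit 0) (nat_lit 8) (nat_lit 9) (Sb.cons (nat_lit 0) (nat_lit 0) (nat_lit 3) (Sb.cons (nat_lit 4) (nat_lit 3) (nat_lit 2) (Sb.cons (nat_lit 8) (nat_lit 5) (nat_lit 4) Sb.nil))) (Bl.r Y0_1_1_0 (nat_lit 0) Bl.nil)) (Sl.cons (Sd.mk (nat_lit 4) (nat_lit 4) (nat_lit 17) (nat_lit 8) (Sb.cons (nat_lit 0) (nat_lit 0) (nat_lit 3) (Sb.cons (nat_lit 4) (nat_lit 3) (nat_lit 3) (Sb.cons (nat_lit 8) (nat_lit 6) (nat_lit 2) Sb.nil))) (Bl.r Y0_1_2_3 (nat_lit 3) Bl.nil)) (Sl.cons (Sd.mk (nat_lit 5) (nat_lit 4) (nat_lit 25) (nat_lit 9) (Sb.cons (nat_lit 0) (nat_lit 0) (nat_lit 2) (Sb.cons (nat_lit 4) (nat_lit 2) (nat_lit 3) (Sb.cons (nat_lit 8)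 (nat_lit 5) (nat_lit 4) Sb.nil))) (Bl.c Y0_1_2_3 (nat_lit 16) (nat_lit 2) Bl.nil)) (Sl.cons (Sd.mk (nat_lit 9) (nat_lit 8) (nat_lit 34) (nat_lit 9) (Sb.cons (nat_lit 0) (nat_lit 0) (nat_lit 2) (Sb.cons (nat_lit 4) (nat_lit 2) (nat_lit 4) (Sb.cons (nat_lit 8) (nat_lit 6) (nat_lit 3) Sb.nil))) (Bl.r Y0_1_4_5 (nat_lit 5) Bl.nil)) (Sl.cons (Sd.mk (nat_lit 10) (nat_lit 8) (nat_lit 43) (nat_lit 9) (Sb.cons (nat_lit 0) (nat_lit 0) (nat_lit 4) (Sb.cons (nat_lit 4) (nat_lit 4) (nat_lit 2) (Sb.cons (nat_lit 8) (nat_lit 6) (nat_lit 3) Sb.nil))) (Bl.c Y0_1_4_5 (nat_lit 18) (nat_lit 4) Bl.nil)) Sl.nil)))))))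
noncomputable def SI0_2 : Nat := (nat_lit 0xc0300c0300c0300c020080200802004010040100401004000000000000)
noncomputable def SW0_2 : Nat := (nat_lit 0xb805802000b0050024008015007803801000300a004c02400d00380180040110060014002000)
noncomputable def RV0_2 : Nat := (nat_lit 0x20400718200a0880c308801220400a18200f08801508804718201d10000708804408803808806820401318202d0880be20401718203308806e08808008808d08809f982015900001)
noncomputable def CO0_2 : Nat := (nat_lit 0x2a80202a80102a7440288840288820288810280c40269c40265410265400249c40241c400aa0400aa0200aa0100a744008a82008a810082c4002b04002744000b84000141000140)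
noncomputable def Y0_2_1_0 : Nat := (nat_lit 0x3e0000000001e0000000000000000000000000000000038000000000000000000000f80000000000000000000000000000000000000000000e0000000000000000000003e0000000001e)
noncomputable def Y0_2_2_3 : Nat := (nat_lit 0x760000000003b0000000000c80000000002400000000032000000000000000000001d8000000000ec000000000760000000003b)
noncomputable def C0_2 : Cd := (Cd.mk (nat_lit 24) (nat_lit 7) (nat_lit 772) SI0_2 SW0_2 RV0_2 CO0_2 (Sl.cons (Sd.mk (nat_lit 0) (nat_lit 0) (nat_lit 0) (nat_lit 5) (Sb.cons (nat_lit 0) (nat_lit 0) (nat_lit 3) (Sb.cons (nat_lit 8) (nat_lit 3) (nat_lit 2) Sb.nil)) (Bl.c Y0_2_1_0 (nat_lit 14) (nat_lit 1) Bl.nil)) (Sl.cons (Sd.mk (nat_lit 2) (nat_lit 0) (nat_lit 5) (nat_lit 7) (Sb.cons (nat_lit 0) (nat_lit 0) (nat_lit 3) (Sb.cons (nat_lit 8) (nat_lit 3) (nat_lit 4) Sb.nil)) (Bl.r Y0_2_1_0 (nat_lit 0) Bl.nil)) (Sl.cons (Sd.mk (nat_lit 9) (nat_lit 8) (nat_lit 12) (nat_lit 5) (Sb.cons (nat_lit 0) (nat_lit 0) (nat_lit 2) (Sb.cons (nat_lit 8) (nat_lit 2) (nat_lit 3) Sb.nil))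 (Bl.r Y0_2_2_3 (nat_lit 3) Bl.nil)) (Sl.cons (Sd.mk (nat_lit 10) (nat_lit 8) (nat_lit 17) (nat_lit 7) (Sb.cons (nat_lit 0) (nat_lit 0) (nat_lit 4) (Sb.cons (nat_lit 8) (nat_lit 4) (nat_lit 3) Sb.nil)) (Bl.c Y0_2_2_3 (nat_lit 10) (nat_lit 2) Bl.nil)) Sl.nil)))))
noncomputable def C0_3 : Cd := (Cd.mk (nat_lit 0) (nat_lit 11) (nat_lit 56) (nat_lit 0) (nat_lit 0) (nat_lit 0) (nat_lit 0) Sl.nil)
noncomputable def SI0_4 : Nat := (nat_lit 0x2008020080200802008020080200802008020080200802008020080200802008020080200801c0701c0701c0701c0701c0701c070180601806018060180601806018060180601806018060180601806018060180601806018060180601806018060180601806018060180601405014050140501405014050140501405014050140501405014050140401004010040100401004010040100401004010040100401004010040100400c0300c0300c0300c0300c0300c0300c0300c0300c0300c0300c0300c0300c0300c02008020080200802008020080200802008010040100401004010040100401004010040100401004010040100000000000000000000000000000000000)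
noncomputable def SW0_4 : Nat := (nat_lit 0xf607a03c81840c806002f81780c606202e817009004b0238118094049022811008603001780b8044021010003401800b03c01dc0b605a021010405a02c00f807801400903981c80ec07103801d40e806f03701b40ac05902a81500b0057029814807a04001e00ec07403f01f00e407003701580a805201a00e806403001700e006c02c01500a002000e006068834019e0b305902941440a105382981480a3050027c13c036014009c02601200880140080cd064832019c0cc065832818e0c605882c013809904c027413609a04b825806a034019809802000306203041800c5061830817e0be05e82bc15c094048023c12a093049024411c08d04601b00a2050027803c0040bc05d82e815a0ac045822811206b035013801c00100002e41700b705582a810e083041022010c085042020410007f03481a00ce04d019009416c0b505a02a415007e03e81f00cc06502600c4048023)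
noncomputable def RV0_4 : Nat := (nat_lit 0x8807b38a0100880220880c508807808806c18203010001138a00e08801f08800f18200c0880ce08807720401518203138a00d08801e08801020400818200d08807638a00c08801d08807938a00f08802008807438a00b08801b08806408804b08805b08804208805a08804108805908804008806208804908805708803e38a01708808888803088802598201338a00608800d38a00020400218200208809588802d98201690000238a00408800a08800218200508809d88802c88802698201790000338a00308800908800320400318200688802b38a0020880080880a688802e88802798201890000438a00508800b08800420400418200788802938a0010880060880d138a01f0880b90880cd0880c40880bc38a01d0880b638a00a08801a08800e18200b38a0072040051820080880cc38a00908801908801320400b18201038a0080880160880b338a01b0880ab08804808803618202110000b08803218201a0880b10880af0880ad38a0190880a908803d18201b10000508803118201908803518202010000a08803c0880450880390880b238a01a0880aa08806120401018202a08804d20400d1820230880b00880ae0880ac38a0180880a808805608804e18202410000c08804c20400c18202208806008805118202710000f08805d0880530880a538a01608808708809c08809408808b38a01208807e38a0150880860880930880a40880011820040880cf38a01e0880b70880c80880c00880ba38a01c0880b408807208806a18202f10001008806520401118202b08806920401418202e0880bf0880c70880710880a138a01408808208809808808f08808938a01108807c38a01308808108808e088097888024982012)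
noncomputable def CO0_4 : Nat := (nat_lit 0x3aac403a8c503a8c403a74403a6c403a64403a64103a64003a4c503a4c403a44403a4410397840396c40396820396810394c50394c40394840394820394810392c40390c50390c4038ac40388c50388c40382c40380c50380c4036ac40369c40366c40365c40356c40355c40352c40351c4034ac40349c40342c40341c4032b05032b040329c40329040329010328c50328c40328050328020328010327440325c40325410325400324c50324c40324440324410317840315c40315840315810315800314c50314c40314840314820314810311c40310c50310c4030b840309c40309840309810309800308c50308c40308840308820308810301c40300c50300c402bb8402bb0502bb0402b78402b74402b34402b30502b30402b0c502b0c402b04402b04102b00502b00202b0010297840290c50290c40288840288820288810280c50280c4027b84027b05027b040279c40279840279810279800279040279010277840277440273440273050273040271c40271410271400271040271010255840255810255800251c40249c40241c4017b84017b05017b04017ac4017a82017a81017a04017a02017a010177840177440173440173050173040172c4017244017241017240017204017202017201016ac4016644016641016640014ac40142c4013b84013b05013b04013784013744013344013305013304012b05012b04012744010b8401004401004100bb8400bb0500bb0400b78400b74400b34400b30500b30400b2c400b24400b24100b24000b20400b20200b20100aa0400aa0200aa0100a7440097840092c4003b84003b05003b04003784003744003344003305003304002b05002b04002744001784001104001101)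
noncomputable def Y0_4_1_0 : Nat := (nat_lit 0x3e0000000000a000000000000000000000000000000003e0000000001f0000000000f8000000000200000000003e0000000000a0000000000f80000000007c00000000000000000000000000000000f80000000007c0000000003e000000000080000000000f8000000000300000000003e0000000000c0000000000f8000000000300000000003e0000000000c0000000000f8000000000140000000003e0000000000c000000017a380000000bd1000000005e8e00000002f45000000017a380000000bd1000000005e8e00000002f47000000017ac00000000252000000005eb000000000b48)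
noncomputable def Y0_4_2_3 : Nat := (nat_lit 0x1f8000000000dc00000000000000000000000000000001f8000000000dc0000000007e000000000370000000001f8000000000dc0000000007e00000000037000000000000000000000000000000007e00000000037000000000000000000000000000bff7f860000048028000002ffdfe1800001200a000000bff7ff80000048028400002ffdffe000001200a100000bff7ff800000480284)
noncomputable def Y0_4_4_5 : Nat := (nat_lit 0x17a00000000000000000000000000000000000000000017a000000000000000000005e8000000000000000000017a000000000080000000005e8000000000200000000017a000000000b50000000005e8000000000200000000017a000000000080000000005e8000000000000000000017a000000000000000000005e80000000000000000000000000000000000000000005e8000000000000000000017a000000000000000000005e8000000000000000000017a000000000b50000000005e8000000000200000000017a00000000008000002f5d8e80000000082000000bd763a00000000208000002f5d8e8000017ae45400000bd763a00000000000000002f5dd000000000000000000bd774000000000000)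
noncomputable def Y0_4_6_6 : Nat := (nat_lit 0x20110080000000000000000000000000000000000000000000000000000000000000000000000000000000000000000000000000000000001f04f8200000e823410000000000000000000000000000804402000004022010000020110080000000000000001f0440200000682201000000000000000000000000000000000000000000000000000000000000000000000000000000000000000000000004013e0800002008d040000170440200000b82201000005c1100800000200000101e000040208050000201000000000000000000000000000000000000000000000000000000000000000000000000000000000000000000000000000000000000000003c100000f820c080000341040580001008202c00008041016000040208000000201040580001008000400000000000000000000000000000000000000000000000000003c1e0000f820c0d00003410402020100000000000000000000000000000000000000000000000000000000000000000000000000000000000000000000000000000000000000000000000000000000f0787c1000030343a0800010080804000080404020000402020100002010100800010080804000000000000000000000000000000000000000000000000000000000000f0787c1000030343a08000)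
noncomputable def Y0_4_7_7 : Nat := (nat_lit 0x15400000000000000000000000000000000000000000015400000000000000000000000000000000000000000141400000000000000000000000000000000000000000141400000000000000000000000000000000000000000154000000000000000000000000000000000000000000154000000000000)
noncomputable def Y0_4_8_8 : Nat := (nat_lit 0x10f2480000000692400000000000000000000000000000000000000000000000000043c92000000018490000001002480000000012400000041c9200000000a490000001072480000000000000000041c9200000020a49000000000000000000000000000000000000000000000000000000000000000000000000000000000000000000000060e000480000000000000018000012000080000090000606000480002000002400018180012000000000000000000000000000000000000000000000000000000000000000000000000000000000000000000000000000000000000000000000000000000018380012000081c0009000000000000000000000000000000000000000000000000060f0f20000020706900000000000000000000000000000000000000000000000000183c3c80000081c1a40000000000000000000000000000000000000000000000)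
noncomputable def C0_4 : Cd := (Cd.mk (nat_lit 210) (nat_lit 4) (nat_lit 4369) SI0_4 SW0_4 RV0_4 CO0_4 (Sl.cons (Sd.mk (nat_lit 0) (nat_lit 0) (nat_lit 0) (nat_lit 14) (Sb.cons (nat_lit 4) (nat_lit 0) (nat_lit 3) (Sb.cons (nat_lit 8) (nat_lit 3) (nat_lit 3) (Sb.cons (nat_lit 12) (nat_lit 6) (nat_lit 8) Sb.nil))) (Bl.c Y0_4_1_0 (nat_lit 42) (nat_lit 1) Bl.nil)) (Sl.cons (Sd.mk (nat_lit 2) (nat_lit 0) (nat_lit 14) (nat_lit 21) (Sb.cons (nat_lit 4) (nat_lit 0) (nat_lit 2) (Sb.cons (nat_lit 8) (nat_lit 2) (nat_lit 4) (Sb.cons (nat_lit 12) (nat_lit 6) (nat_lit 15) Sb.nil))) (Bl.r Y0_4_1_0 (nat_lit 0) Bl.nil)) (Sl.cons (Sd.mk (nat_lit 4) (nat_lit 4) (nat_lit 35) (nat_lit 14) (Sb.cons (nat_lit 0) (nat_lit 0) (nat_lit 3) (Sb.cons (nat_lit 8) (nat_lit 3) (nat_lit 3) (Sb.cons (nat_lit 12) (nat_lit 6) (nat_lit 8) Sb.nil))) (Bl.r Y0_4_2_3 (nat_lit 3) Bl.nil)) (Sl.cons (Sd.mk (nat_lit 5) (nat_lit 4) (nat_lit 49) (nat_lit 27) (Sb.cons (nat_lit 0) (nat_lit 0) (nat_lit 2) (Sb.cons (nat_lit 8) (nat_lit 2) (nat_lit 4) (Sb.cons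 (nat_lit 12) (nat_lit 6) (nat_lit 21) Sb.nil))) (Bl.c Y0_4_2_3 (nat_lit 28) (nat_lit 2) Bl.nil)) (Sl.cons (Sd.mk (nat_lit 9) (nat_lit 8) (nat_lit 76) (nat_lit 25) (Sb.cons (nat_lit 0) (nat_lit 0) (nat_lit 2) (Sb.cons (nat_lit 4) (nat_lit 2) (nat_lit 4) (Sb.cons (nat_lit 12) (nat_lit 6) (nat_lit 19) Sb.nil))) (Bl.r Y0_4_4_5 (nat_lit 5) Bl.nil)) (Sl.cons (Sd.mk (nat_lit 10) (nat_lit 8) (nat_lit 101) (nat_lit 23) (Sb.cons (nat_lit 0) (nat_lit 0) (nat_lit 5) (Sb.cons (nat_lit 4) (nat_lit 5) (nat_lit 3) (Sb.cons (nat_lit 12) (nat_lit 8) (nat_lit 15) Sb.nil))) (Bl.c Y0_4_4_5 (nat_lit 50) (nat_lit 4) Bl.nil)) (Sl.cons (Sd.mk (nat_lit 12) (nat_lit 12) (nat_lit 124) (nat_lit 44) (Sb.cons (nat_lit 0) (nat_lit 0) (nat_lit 13) (Sb.cons (nat_lit 4) (nat_lit 13) (nat_lit 13) (Sb.cons (nat_lit 8) (nat_lit 26) (nat_lit 18) Sb.nil))) (Bl.r Y0_4_6_6 (nat_lit 6) (Bl.c Y0_4_6_6 (nat_lit 88) (nat_lit 6) Bl.nil))) (Sl.cons (Sd.mk (nat_lit 13) (nat_lit 12) (nat_lit 168) (nat_lit 12) (Sb.cons (nat_lit 0) (nat_lit 0) (nat_lit 4) (Sb.cons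 (nat_lit 4) (nat_lit 4) (nat_lit 4) (Sb.cons (nat_lit 8) (nat_lit 8) (nat_lit 4) Sb.nil))) (Bl.r Y0_4_7_7 (nat_lit 7) (Bl.c Y0_4_7_7 (nat_lit 24) (nat_lit 7) Bl.nil))) (Sl.cons (Sd.mk (nat_lit 14) (nat_lit 12) (nat_lit 180) (nat_lit 30) (Sb.cons (nat_lit 0) (nat_lit 0) (nat_lit 6) (Sb.cons (nat_lit 4) (nat_lit 6) (nat_lit 12) (Sb.cons (nat_lit 8) (nat_lit 18) (nat_lit 12) Sb.nil))) (Bl.r Y0_4_8_8 (nat_lit 8) (Bl.c Y0_4_8_8 (nat_lit 60) (nat_lit 8) Bl.nil))) Sl.nil))))))))))
noncomputable def SI0_5 : Nat := (nat_lit 0x10040100400c0300c03008020080200802008010040100401004010040100400000000000000000)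
noncomputable def SW0_5 : Nat := (nat_lit 0x8003c00c0050070034008003005003001200b004000800201f00f006c03401600a005c02a013000007403801900c0048022007)
noncomputable def RV0_5 : Nat := (nat_lit 0x8807a08802108807508801c08806308804a08805808803f0880a788802f88802808800c08800588802a0880070880d00880b80880c90880c10880bb0880b508807308806b08806608806f0880a208808308809908809008808a08807d0880a0)
noncomputable def CO0_5 : Nat := (nat_lit 0x38ac40388c40382c40380c4034ac40349c40342c40341c4030b840309c40309840308c40308840301c40300c400bb8400bb0400b78400b74400b34400b30400b2c400b24400b2040082c4003b84003b04003784003744003344003304000b84)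
noncomputable def C0_5 : Cd := (Cd.mk (nat_lit 32) (nat_lit 10) (nat_lit 4105) SI0_5 SW0_5 RV0_5 CO0_5 (Sl.cons (Sd.mk (nat_lit 0) (nat_lit 0) (nat_lit 0) (nat_lit 7) (Sb.cons (nat_lit 0) (nat_lit 0) (nat_lit 1) (Sb.cons (nat_lit 12) (nat_lit 1) (nat_lit 6) Sb.nil)) Bl.nil) (Sl.cons (Sd.mk (nat_lit 2) (nat_lit 0) (nat_lit 7) (nat_lit 10) (Sb.cons (nat_lit 0) (nat_lit 0) (nat_lit 1) (Sb.cons (nat_lit 12) (nat_lit 1) (nat_lit 9) Sb.nil)) Bl.nil) (Sl.cons (Sd.mk (nat_lit 12) (nat_lit 12) (nat_lit 17) (nat_lit 7) (Sb.cons (nat_lit 0) (nat_lit 0) (nat_lit 7) Sb.nil) Bl.nil) (Sl.cons (Sd.mk (nat_lit 13) (nat_lit 12) (nat_lit 24) (nat_lit 4) (Sb.cons (nat_lit 0) (nat_lit 0) (nat_lit 4) Sb.nil) Bl.nil) (Sl.cons (Sd.mk (nat_lit 14) (nat_lit 12) (nat_lit 28) (nat_lit 4) (Sb.cons (nat_lit 0) (nat_lit 0) (nat_lit 4) Sb.nil) Bl.nil) Sl.nil))))))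
noncomputable def CL0 : Cl := (Cl.cons C0_0 (Cl.cons C0_1 (Cl.cons C0_2 (Cl.cons C0_3 (Cl.cons C0_4 (Cl.cons C0_5 Cl.nil))))))
noncomputable def ZL0_0 : Zl := (Zl.cons (nat_lit 0) (nat_lit 0) (nat_lit 5) (Zl.cons (nat_lit 17) (nat_lit 5) (nat_lit 8) (Zl.cons (nat_lit 0) (nat_lit 0) (nat_lit 0) (Zl.cons (nat_lit 0) (nat_lit 0) (nat_lit 0) (Zl.cons (nat_lit 35) (nat_lit 13) (nat_lit 14) (Zl.cons (nat_lit 0) (nat_lit 0) (nat_lit 0) Zl.nil))))))
noncomputable def ZZ0 : ZZ := (ZZ.cons ZL0_0 ZZ.nil)
noncomputable def SI1_0 : Nat := (nat_lit 0xc03008020080100401004010000000000)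
noncomputable def SW1_0 : Nat := (nat_lit 0x10003003801800400d005802800a0010060024008000)
noncomputable def RV1_0 : Nat := (nat_lit 0x8805608800f08801f18200c08802308802c08802518200d18200e08802908803f088045088048182000)
noncomputable def CO1_0 : Nat := (nat_lit 0x297840290c40255840255810251c4016ac40166440166410156810152c4012b04012744011784011001)
noncomputable def Y1_0_0_1 : Nat := (nat_lit 0x3000030000000000000030000300003000000001f0001f00002000000001f0001f0000000000)
noncomputable def Y1_0_2_3 : Nat := (nat_lit 0x30000300000000000000300003000000000000003000030000000000)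
noncomputable def C1_0 : Cd := (Cd.mk (nat_lit 14) (nat_lit 5) (nat_lit 320) SI1_0 SW1_0 RV1_0 CO1_0 (Sl.cons (Sd.mk (nat_lit 4) (nat_lit 4) (nat_lit 0) (nat_lit 4) (Sb.cons (nat_lit 4) (nat_lit 0) (nat_lit 2) (Sb.cons (nat_lit 8) (nat_lit 2) (nat_lit 2) Sb.nil)) (Bl.r Y1_0_0_1 (nat_lit 1) Bl.nil)) (Sl.cons (Sd.mk (nat_lit 5) (nat_lit 4) (nat_lit 4) (nat_lit 5) (Sb.cons (nat_lit 4) (nat_lit 0) (nat_lit 2) (Sb.cons (nat_lit 8) (nat_lit 2) (nat_lit 3) Sb.nil)) (Bl.c Y1_0_0_1 (nat_lit 16) (nat_lit 0) Bl.nil)) (Sl.cons (Sd.mk (nat_lit 9) (nat_lit 8) (nat_lit 9) (nat_lit 3) (Sb.cons (nat_lit 4) (nat_lit 0) (nat_lit 3) Sb.nil) (Bl.r Y1_0_2_3 (nat_lit 3) Bl.nil)) (Sl.cons (Sd.mk (nat_lit 10) (nat_lit 8) (nat_lit 12) (nat_lit 2) (Sb.cons (nat_lit 4) (nat_lit 0) (nat_lit 2) Sb.nil) (Bl.c Y1_0_2_3 (nat_lit 12) (nat_lit 2) Bl.nil)) Sl.nil)))))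
noncomputable def SI1_1 : Nat := (nat_lit 0x5014040100300c0300c0200801004010040000000)
noncomputable def SW1_1 : Nat := (nat_lit 0x6002803801800d0058010004008000804001e00a001802400e000)
noncomputable def RV1_1 : Nat := (nat_lit 0x8800a18200510000510000610000a20400708802a08802720400008800008802f18200f08805420400c088046888015900000)
noncomputable def CO1_1 : Nat := (nat_lit 0x28884028881026540025580016640015682014ac40142c401100201004400aa0400aa01009784008a82001784001104000140)
noncomputable def Y1_1_1_0 : Nat := (nat_lit 0x4000040000400004000010000000000000000000100000000000000000002000000000000000)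
noncomputable def Y1_1_2_3 : Nat := (nat_lit 0x30000100001000010000c000000000000000)
noncomputable def Y1_1_4_5 : Nat := (nat_lit 0x300002000020000200003000000000000000)
noncomputable def C1_1 : Cd := (Cd.mk (nat_lit 17) (nat_lit 6) (nat_lit 546) SI1_1 SW1_1 RV1_1 CO1_1 (Sl.cons (Sd.mk (nat_lit 0) (nat_lit 0) (nat_lit 0) (nat_lit 3) (Sb.cons (nat_lit 0) (nat_lit 0) (nat_lit 1) (Sb.cons (nat_lit 4) (nat_lit 1) (nat_lit 2) Sb.nil)) (Bl.c Y1_1_1_0 (nat_lit 16) (nat_lit 1) Bl.nil)) (Sl.cons (Sd.mk (nat_lit 2) (nat_lit 0) (nat_lit 3) (nat_lit 4) (Sb.cons (nat_lit 0) (nat_lit 0) (nat_lit 1) (Sb.cons (nat_lit 4) (nat_lit 1) (nat_lit 1) (Sb.cons (nat_lit 8) (nat_lit 2) (nat_lit 2) Sb.nil))) (Bl.r Y1_1_1_0 (nat_lit 0) Bl.nil)) (Sl.cons (Sd.mk (nat_lit 4) (nat_lit 4) (nat_lit 7) (nat_lit 2) (Sb.cons (nat_lit 0) (nat_lit 0) (nat_lit 1) (Sb.cons (nat_lit 4) (nat_lit 1) (nat_lit 1) Sb.nil)) (Bl.r Y1_1_2_3 (nat_lit 3) Bl.nil)) (Sl.cons (Sd.mk (nat_lit 5) (nat_lit 4) (nat_lit 9) (nat_lit 4) (Sb.cons (nat_lit 0) (nat_lit 0)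 (nat_lit 2) (Sb.cons (nat_lit 4) (nat_lit 2) (nat_lit 1) (Sb.cons (nat_lit 8) (nat_lit 3) (nat_lit 1) Sb.nil))) (Bl.c Y1_1_2_3 (nat_lit 8) (nat_lit 2) Bl.nil)) (Sl.cons (Sd.mk (nat_lit 9) (nat_lit 8) (nat_lit 13) (nat_lit 2) (Sb.cons (nat_lit 4) (nat_lit 0) (nat_lit 1) (Sb.cons (nat_lit 8) (nat_lit 1) (nat_lit 1) Sb.nil)) (Bl.r Y1_1_4_5 (nat_lit 5) Bl.nil)) (Sl.cons (Sd.mk (nat_lit 10) (nat_lit 8) (nat_lit 15) (nat_lit 2) (Sb.cons (nat_lit 0) (nat_lit 0) (nat_lit 2) Sb.nil) (Bl.c Y1_1_4_5 (nat_lit 8) (nat_lit 4) Bl.nil)) Sl.nil)))))))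
noncomputable def SI1_2 : Nat := (nat_lit 0x300c0300c0200802004010000000000)
noncomputable def SW1_2 : Nat := (nat_lit 0xc004001400600b00380080140010048018008000)
noncomputable def RV1_2 : Nat := (nat_lit 0x18200308805308800b08800d08802418200b08802208803008803408803c088044088049982008)
noncomputable def CO1_2 : Nat := (nat_lit 0x2a80102a7440288840280c40269c40265410241c400aa040082c4002b04002744000b84000141)
noncomputable def Y1_2_1_0 : Nat := (nat_lit 0xf0000f00009000000000f0000f0000000000)
noncomputable def Y1_2_2_3 : Nat := (nat_lit 0xf000060000000000000030000300000000000000f000070000000000)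
noncomputable def C1_2 : Cd := (Cd.mk (nat_lit 13) (nat_lit 7) (nat_lit 772) SI1_2 SW1_2 RV1_2 CO1_2 (Sl.cons (Sd.mk (nat_lit 0) (nat_lit 0) (nat_lit 0) (nat_lit 4) (Sb.cons (nat_lit 0) (nat_lit 0) (nat_lit 2) (Sb.cons (nat_lit 8) (nat_lit 2) (nat_lit 2) Sb.nil)) (Bl.c Y1_2_1_0 (nat_lit 8) (nat_lit 1) Bl.nil)) (Sl.cons (Sd.mk (nat_lit 2) (nat_lit 0) (nat_lit 4) (nat_lit 2) (Sb.cons (nat_lit 0) (nat_lit 0) (nat_lit 1) (Sb.cons (nat_lit 8) (nat_lit 1) (nat_lit 1) Sb.nil)) (Bl.r Y1_2_1_0 (nat_lit 0) Bl.nil)) (Sl.cons (Sd.mk (nat_lit 9) (nat_lit 8) (nat_lit 6) (nat_lit 3) (Sb.cons (nat_lit 0) (nat_lit 0) (nat_lit 1) (Sb.cons (nat_lit 8) (nat_lit 1) (nat_lit 2) Sb.nil)) (Bl.r Y1_2_2_3 (nat_lit 3) Bl.nil)) (Sl.cons (Sd.mk (nat_lit 10) (nat_lit 8) (nat_lit 9) (nat_lit 4) (Sb.cons (nat_lit 0) (nat_lit 0) (nat_lit 2) (Sb.cons (nat_lit 8) (nat_lit 2) (nat_lit 2) Sb.nil)) (Bl.c Y1_2_2_3 (nat_lit 12) (nat_lit 2) Bl.nil)) Sl.nil)))))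
noncomputable def C1_3 : Cd := (Cd.mk (nat_lit 0) (nat_lit 11) (nat_lit 56) (nat_lit 0) (nat_lit 0) (nat_lit 0) (nat_lit 0) Sl.nil)
noncomputable def SI1_4 : Nat := (nat_lit 0x1c0701c0701c0701c0701c0701c0701c06018060180601806018060180601806018060180601806014050140501405014050140501405010040100401004010040100300c0300c0300c0300c020080200802008020080100401004010040100401004010040100000000000000000000)
noncomputable def SW1_4 : Nat := (nat_lit 0x7203801680b005602a0120070036014009801c00c03701a80d8068029014009c04602200d0064024010007804401c00d00280100b20580260128096049010806001800b005000c0ae05602a8150090047023008003e05302281100660260128024004052028810c0840320040004000050027810407c04001f80f407803101800bc03c017027013407603a017007402c015)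
noncomputable def RV1_4 : Nat := (nat_lit 0x8803908801408803310000d08800918200420400b08803708801208803808801308803608801188801c88801708800720400190000108800218200290000220400288801a08800588801b88801890000308800608800320400388801908800408805908805008805208804e08800820400408805708801008800c20400518200608800e08802110000808801e18200a10000408801d18200908802010000720400810000920400608802d08802610000b08802b08802808804c08804108804308803b08804008804b08800118200108805808804f08805108804d08803210000c08802e20400908803120400a18201008805508803508804a08803e08804208803a08803d088047888016982007)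
noncomputable def CO1_4 : Nat := (nat_lit 0x3aac403a8c403a64403a64003a44403a4410396820392c40390c4038ac40388c40382c40380c40329c40329040328c40328020325400324440324410315800314820311c40310c40309c40309840309800308c40308840308820301c40300c402bb8402bb0402b34402b30402b04402b0020297840290c40288840288820288810280c4027984027980027904027901027140027104027101025584025580017a82017240017202016ac4016644016640014ac40142c4013b84013b04013344013304012b04010b8401004401004100bb8400bb0400b34400b30400b24400b24000b20400b20200aa0400aa0200aa010097840092c4003b84003b04003344003304002b04001784001104001101)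
noncomputable def Y1_4_1_0 : Nat := (nat_lit 0x20000200000000000000f0000b00000000000000f0000b00000000000000f0000b000000000000004000000000000000000040000000000000000000400000000000000000005000010000000000000f4000f40000000000000f5000f50000000000000f4000f400024000000007000000000000000000070000700000000000)
noncomputable def Y1_4_2_3 : Nat := (nat_lit 0x1f0000d00009000000001f0000d00000000000001f0000d00000000000001f0000d0000000000000e0000000000000000000e4000040000000000000e4000040000000000000e4000440000000000)
noncomputable def Y1_4_4_5 : Nat := (nat_lit 0x40000400000000000003b0000a000000000000004000040000000000000040000400000000000003b0000a000020000000004000040000400000000040000400004000000004400004000040000000f8b00f8b0000000000)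
noncomputable def Y1_4_6_6 : Nat := (nat_lit 0xae2000820000000000002820000000000000000000000000000000000000a8200a00008000000000800008000080000000000000000000000000004008200000000000000000000000000000000000640e204082040000000000000000000000000000000000000000000000000000000000000000000064a0060200000000000040200000000000000000402004000040000000000000000000000000000064a00602000000000000)
noncomputable def Y1_4_7_7 : Nat := (nat_lit 0x15000050000000000000000000000000000000001500010000000000000015000100000000000000000000000000000000000000000000000000000805000000000000000009850018500000000000000000000000000000000990008000000000000000000000000000000000099000010000000000000000000000000000000)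
noncomputable def C1_4 : Cd := (Cd.mk (nat_lit 90) (nat_lit 4) (nat_lit 4369) SI1_4 SW1_4 RV1_4 CO1_4 (Sl.cons (Sd.mk (nat_lit 0) (nat_lit 0) (nat_lit 0) (nat_lit 8) (Sb.cons (nat_lit 4) (nat_lit 0) (nat_lit 3) (Sb.cons (nat_lit 8) (nat_lit 3) (nat_lit 1) (Sb.cons (nat_lit 12) (nat_lit 4) (nat_lit 4) Sb.nil))) (Bl.c Y1_4_1_0 (nat_lit 52) (nat_lit 1) Bl.nil)) (Sl.cons (Sd.mk (nat_lit 2) (nat_lit 0) (nat_lit 8) (nat_lit 13) (Sb.cons (nat_lit 4) (nat_lit 0) (nat_lit 2) (Sb.cons (nat_lit 8) (nat_lit 2) (nat_lit 3) (Sb.cons (nat_lit 12) (nat_lit 5) (nat_lit 8) Sb.nil))) (Bl.r Y1_4_1_0 (nat_lit 0) Bl.nil)) (Sl.cons (Sd.mk (nat_lit 4) (nat_lit 4) (nat_lit 21) (nat_lit 8) (Sb.cons (nat_lit 0) (nat_lit 0) (nat_lit 3) (Sb.cons (nat_lit 8) (nat_lit 3) (nat_lit 1) (Sb.cons (nat_lit 12) (nat_lit 4) (nat_lit 4) Sb.nil))) (Bl.r Y1_4_2_3 (nat_lit 3) Bl.nil)) (Sl.cons (Sd.mk (nat_lit 5) (nat_lit 4) (nat_lit 29) (nat_lit 8) (Sb.cons (nat_lit 0) (nat_lit 0) (nat_lit 2) (Sb.cons (nat_lit 8) (nat_lit 2) (nat_lit 3) (Sb.cons (nat_lit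 12) (nat_lit 5) (nat_lit 3) Sb.nil))) (Bl.c Y1_4_2_3 (nat_lit 32) (nat_lit 2) Bl.nil)) (Sl.cons (Sd.mk (nat_lit 9) (nat_lit 8) (nat_lit 37) (nat_lit 9) (Sb.cons (nat_lit 4) (nat_lit 0) (nat_lit 2) (Sb.cons (nat_lit 12) (nat_lit 2) (nat_lit 7) Sb.nil)) (Bl.r Y1_4_4_5 (nat_lit 5) Bl.nil)) (Sl.cons (Sd.mk (nat_lit 10) (nat_lit 8) (nat_lit 46) (nat_lit 12) (Sb.cons (nat_lit 0) (nat_lit 0) (nat_lit 4) (Sb.cons (nat_lit 4) (nat_lit 4) (nat_lit 2) (Sb.cons (nat_lit 12) (nat_lit 6) (nat_lit 6) Sb.nil))) (Bl.c Y1_4_4_5 (nat_lit 36) (nat_lit 4) Bl.nil)) (Sl.cons (Sd.mk (nat_lit 12) (nat_lit 12) (nat_lit 58) (nat_lit 19) (Sb.cons (nat_lit 0) (nat_lit 0) (nat_lit 8) (Sb.cons (nat_lit 4) (nat_lit 8) (nat_lit 4) (Sb.cons (nat_lit 8) (nat_lit 12) (nat_lit 7) Sb.nil))) (Bl.r Y1_4_6_6 (nat_lit 6) (Bl.c Y1_4_6_6 (nat_lit 76) (nat_lit 6) Bl.nil))) (Sl.cons (Sd.mk (nat_lit 14) (nat_lit 12) (nat_lit 77) (nat_lit 13) (Sb.cons (nat_lit 0) (nat_lit 0) (nat_lit 4) (Sb.cons (nat_lit 4) (nat_lit 4) (nat_lit 3) (Sb.cons (nat_lit 8) (nat_lit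 7) (nat_lit 6) Sb.nil))) (Bl.r Y1_4_7_7 (nat_lit 7) (Bl.c Y1_4_7_7 (nat_lit 52) (nat_lit 7) Bl.nil))) Sl.nil)))))))))
noncomputable def C1_5 : Cd := (Cd.mk (nat_lit 0) (nat_lit 10) (nat_lit 4105) (nat_lit 0) (nat_lit 0) (nat_lit 0) (nat_lit 0) Sl.nil)
noncomputable def CL1 : Cl := (Cl.cons C1_0 (Cl.cons C1_1 (Cl.cons C1_2 (Cl.cons C1_3 (Cl.cons C1_4 (Cl.cons C1_5 Cl.nil))))))
noncomputable def AL1_0 : Nat := (nat_lit 0x3de7d)
noncomputable def A41_0 : Nat := (nat_lit 0x3de7d)
noncomputable def IX1_0 : Nat := (nat_lit 0xd000000000000c000000000000b000000000000a00000000000000000000000009000000000000800000000000070000000000006000000000000000000000000000000000000005000000000000400000000000030000000000002000000000000100000000000000000000000000)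
noncomputable def OL1_0 : Nat := (nat_lit 0x220040007800e0018002c0050009000c0014002000300040000)
noncomputable def AL1_1 : Nat := (nat_lit 0xd92366e5fd71)
noncomputable def A41_1 : Nat := (nat_lit 0x512066255431)
noncomputable def IX1_1 : Nat := (nat_lit 0x100000000000000000000000000f000000000000000000000000000000000000000000000000000e00000000000000000000000000000000000000d000000000000000000000000000000000000000000000000000000000000000000000000000000000000000000c000000000000b00000000000000000000000000000000000000a00000000000090000000000000000000000000000000000000000000000000008000000000000000000000000000000000000007000000000000000000000000060000000000000000000000000500000000000000000000000004000000000000000000000000030000000000000000000000000000000000000000000000000000000000000000200000000000010000000000000000000000000000000000000000000000000000)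
noncomputable def OL1_1 : Nat := (nat_lit 0xb80160028004a007800e801a003200540090010001c0030005000500080000)
noncomputable def AL1_2 : Nat := (nat_lit 0x77b83e)
noncomputable def A41_2 : Nat := (nat_lit 0x73983e)
noncomputable def IX1_2 : Nat := (nat_lit 0xc000000000000b000000000000a00000000000000000000000000000000000000900000000000080000000000007000000000000000000000000000000000000006000000000000500000000000000000000000000000000000000000000000000000000000000000000000000000400000000000030000000000002000000000000100000000000000000000000000)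
noncomputable def OL1_2 : Nat := (nat_lit 0x5800a801400220040007800c00160014002000300040004)
noncomputable def AL1_3 : Nat := (nat_lit 0)
noncomputable def A41_3 : Nat := (nat_lit 0)
noncomputable def IX1_3 : Nat := (nat_lit 0)
noncomputable def OL1_3 : Nat := (nat_lit 0)
noncomputable def AL1_4 : Nat := (nat_lit 0x2f5f9b6d00032bdfefad75bd777a1f01f8090056f7afdefffef5f)
noncomputable def A41_4 : Nat := (nat_lit 0x294c816d0003284c22ad75a5257a1701e8080056f4abd2aeee957)
noncomputable def IX1_4 : Nat := (nat_lit 0x590000000000000000000000005800000000000000000000000000000000000005700000000000000000000000056000000000000000000000000000000000000055000000000005400000000000000000000000000000000000005300000000000000000000000000000000000000000000000000000000000000000000000000000000000000000520000000000000000000000005100000000000500000000000000000000000004f000000000004e0000000000000000000000004d000000000000000000000000000000000000000000000000000000000000000000000000000000000000000000000000000000000000000000000000000000000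00000000000000000000000000000000000000000000000000000000000000004c000000000004b00000000000000000000000000000000000004a0000000000000000000000004900000000000000000000000000000000000000000000000000000000000000048000000000000000000000000000000000000047000000000004600000000000000000000000000000000000000000000000000000000000000045000000000000000000000000000000000000000000000000004400000000000000000000000043000000000000000000000000420000000000000000000000004100000000000400000000000000000000000003f0000000000000000000000003e000000000003d000000000003c0000000000000000000000003b0000000000000000000000003a00000000000390000000000000000000000003800000000000000000000000000000000000003700000000000000000000000036000000000000000000000000000000000000035000000000000000000000000000000000000034000000000000000000000000330000000000000000000000003200000000000310000000000030000000000002f0000000000000000000000002e0000000000000000000000000000000000000000000000000000000000000002d0000000000000000000000002c000000000002b000000000002a000000000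0000000000000000000000000000000000000000000000000000000000000000000000000000000000000000000002900000000000280000000000027000000000002600000000000000000000000025000000000000000000000000000000000000000000000000000000000000000000000000000000000000000000000000000000240000000000000000000000000000000000000000000000000000000000000000000000000000000000000000000000000000000000000000000000000000000000000000000000000000000000000000000000023000000000000000000000000220000000000000000000000002100000000000200000000000000000000000001f000000000001e000000000001d000000000001c0000000000000000000000001b00000000000000000000000000000000000001a0000000000000000000000001900000000000000000000000018000000000000000000000000170000000000016000000000001500000000000140000000000000000000000001300000000000000000000000000000000000001200000000000000000000000011000000000000000000000000100000000000000000000000000f000000000000e000000000000d0000000000000000000000000c000000000000b000000000000a00000000000000000000000009000000000000800000000000070000000000000000000000000600000000000000000000000000000000000000500000000000000000000000004000000000000000000000000030000000000000000000000000200000000000010000000000000)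
noncomputable def OL1_4 : Nat := (nat_lit 0x1a2033c06600ca018e031806180bc017402e405b80b60168029405200a1013e026804b8096012202340458089010e021804200820102020003f007c00f601e403b007400e201b8036006a00d201a0033806500c0017802e805c00a8014c0290051009e011c01d0038006c00d40198032006200c0017002b0052009c012802400460088010001d0036006400b8016002a004c0090011001e0038006800b00100018002000200020000)
noncomputable def AL1_5 : Nat := (nat_lit 0)
noncomputable def A41_5 : Nat := (nat_lit 0)
noncomputable def IX1_5 : Nat := (nat_lit 0)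
noncomputable def OL1_5 : Nat := (nat_lit 0)
noncomputable def TL1 : Tl := (Tl.cons (Tr.mk AL1_0 A41_0 IX1_0 OL1_0) (Tl.cons (Tr.mk AL1_1 A41_1 IX1_1 OL1_1) (Tl.cons (Tr.mk AL1_2 A41_2 IX1_2 OL1_2) (Tl.cons (Tr.mk AL1_3 A41_3 IX1_3 OL1_3) (Tl.cons (Tr.mk AL1_4 A41_4 IX1_4 OL1_4) (Tl.cons (Tr.mk AL1_5 A41_5 IX1_5 OL1_5) Tl.nil))))))
noncomputable def ZL1_0 : Zl := (Zl.cons (nat_lit 0) (nat_lit 0) (nat_lit 4) (Zl.cons (nat_lit 7) (nat_lit 4) (nat_lit 2) (Zl.cons (nat_lit 0) (nat_lit 0) (nat_lit 0) (Zl.cons (nat_lit 0) (nat_lit 0) (nat_lit 0) (Zl.cons (nat_lit 21) (nat_lit 6) (nat_lit 8) (Zl.cons (nat_lit 0) (nat_lit 0) (nat_lit 0) Zl.nil))))))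
noncomputable def ZZ1 : ZZ := (ZZ.cons ZL1_0 ZZ.nil)
noncomputable def C2_0 : Cd := (Cd.mk (nat_lit 0) (nat_lit 5) (nat_lit 320) (nat_lit 0) (nat_lit 0) (nat_lit 0) (nat_lit 0) Sl.nil)
noncomputable def C2_1 : Cd := (Cd.mk (nat_lit 0) (nat_lit 6) (nat_lit 546) (nat_lit 0) (nat_lit 0) (nat_lit 0) (nat_lit 0) Sl.nil)
noncomputable def C2_2 : Cd := (Cd.mk (nat_lit 0) (nat_lit 7) (nat_lit 772) (nat_lit 0) (nat_lit 0) (nat_lit 0) (nat_lit 0) Sl.nil)
noncomputable def C2_3 : Cd := (Cd.mk (nat_lit 0) (nat_lit 11) (nat_lit 56) (nat_lit 0) (nat_lit 0) (nat_lit 0) (nat_lit 0) Sl.nil)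
noncomputable def C2_4 : Cd := (Cd.mk (nat_lit 0) (nat_lit 4) (nat_lit 4369) (nat_lit 0) (nat_lit 0) (nat_lit 0) (nat_lit 0) Sl.nil)
noncomputable def C2_5 : Cd := (Cd.mk (nat_lit 0) (nat_lit 10) (nat_lit 4105) (nat_lit 0) (nat_lit 0) (nat_lit 0) (nat_lit 0) Sl.nil)
noncomputable def CL2 : Cl := (Cl.cons C2_0 (Cl.cons C2_1 (Cl.cons C2_2 (Cl.cons C2_3 (Cl.cons C2_4 (Cl.cons C2_5 Cl.nil))))))
noncomputable def AL2_0 : Nat := (nat_lit 0)
noncomputable def A42_0 : Nat := (nat_lit 0)
noncomputable def IX2_0 : Nat := (nat_lit 0)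
noncomputable def OL2_0 : Nat := (nat_lit 0)
noncomputable def AL2_1 : Nat := (nat_lit 0x14344)
noncomputable def A42_1 : Nat := (nat_lit 0)
noncomputable def IX2_1 : Nat := (nat_lit 0)
noncomputable def OL2_1 : Nat := (nat_lit 0)
noncomputable def AL2_2 : Nat := (nat_lit 0)
noncomputable def A42_2 : Nat := (nat_lit 0)
noncomputable def IX2_2 : Nat := (nat_lit 0)
noncomputable def OL2_2 : Nat := (nat_lit 0)
noncomputable def AL2_3 : Nat := (nat_lit 0)
noncomputable def A42_3 : Nat := (nat_lit 0)
noncomputable def IX2_3 : Nat := (nat_lit 0)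
noncomputable def OL2_3 : Nat := (nat_lit 0)
noncomputable def AL2_4 : Nat := (nat_lit 0)
noncomputable def A42_4 : Nat := (nat_lit 0)
noncomputable def IX2_4 : Nat := (nat_lit 0)
noncomputable def OL2_4 : Nat := (nat_lit 0)
noncomputable def AL2_5 : Nat := (nat_lit 0)
noncomputable def A42_5 : Nat := (nat_lit 0)
noncomputable def IX2_5 : Nat := (nat_lit 0)
noncomputable def OL2_5 : Nat := (nat_lit 0)
noncomputable def TL2 : Tl := (Tl.cons (Tr.mk AL2_0 A42_0 IX2_0 OL2_0) (Tl.cons (Tr.mk AL2_1 A42_1 IX2_1 OL2_1) (Tl.cons (Tr.mk AL2_2 A42_2 IX2_2 OL2_2) (Tl.cons (Tr.mk AL2_3 A42_3 IX2_3 OL2_3) (Tl.cons (Tr.mk AL2_4 A42_4 IX2_4 OL2_4) (Tl.cons (Tr.mk AL2_5 A42_5 IX2_5 OL2_5) Tl.nil))))))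
def wf0_0 : wfC (nat_lit 45) (nat_lit 2) C0_0 = true := by decide +kernel
def pl0_0 : plCk (nat_lit 45) (nat_lit 2) (nat_lit 11) (nat_lit 5) (nat_lit 0) (nat_lit 2) (nat_lit 6) (nat_lit 4) (nat_lit 0) nl0 CL0 = true := by decide +kernel
def wf0_1 : wfC (nat_lit 45) (nat_lit 2) C0_1 = true := by decide +kernel
def pl0_1 : plCk (nat_lit 45) (nat_lit 2) (nat_lit 11) (nat_lit 5) (nat_lit 0) (nat_lit 2) (nat_lit 6) (nat_lit 4) (nat_lit 1) nl0 CL0 = true := by decide +kernel
def wf0_2 : wfC (nat_lit 45) (nat_lit 2) C0_2 = true := by decide +kernel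
def pl0_2 : plCk (nat_lit 45) (nat_lit 2) (nat_lit 11) (nat_lit 5) (nat_lit 0) (nat_lit 2) (nat_lit 6) (nat_lit 4) (nat_lit 2) nl0 CL0 = true := by decide +kernel
def wf0_4 : wfC (nat_lit 45) (nat_lit 2) C0_4 = true := by decide +kernel
def pl0_4 : plCk (nat_lit 45) (nat_lit 2) (nat_lit 11) (nat_lit 5) (nat_lit 0) (nat_lit 2) (nat_lit 6) (nat_lit 4) (nat_lit 4) nl0 CL0 = true := by decide +kernel
def wf0_5 : wfC (nat_lit 45) (nat_lit 2) C0_5 = true := by decide +kernel
def pl0_5 : plCk (nat_lit 45) (nat_lit 2) (nat_lit 11) (nat_lit 5) (nat_lit 0) (nat_lit 2) (nat_lit 6) (nat_lit 4) (nat_lit 5) nl0 CL0 = true := by decide +kernel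
def ti0_0 : tileCk (nat_lit 45) (nat_lit 2) (nat_lit 1) (nat_lit 1) (nat_lit 27) (nat_lit 11) (nat_lit 6) ZL0_0 CL0 = true := by decide +kernel
def zl0_0 : zlOK (nat_lit 27) ZL0_0 = true := by decide +kernel
def tc0_0 : tiCov (nat_lit 1) (nat_lit 0) ZZ0 C0_0 = true := by decide +kernel
def tc0_1 : tiCov (nat_lit 1) (nat_lit 1) ZZ0 C0_1 = true := by decide +kernel
def tc0_2 : tiCov (nat_lit 1) (nat_lit 2) ZZ0 C0_2 = true := by decide +kernel
def tc0_4 : tiCov (nat_lit 1) (nat_lit 4) ZZ0 C0_4 = true := by decide +kernel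
def tc0_5 : tiCov (nat_lit 1) (nat_lit 5) ZZ0 C0_5 = true := by decide +kernel
def wf1_0 : wfC (nat_lit 20) (nat_lit 4) C1_0 = true := by decide +kernel
def rf1_0 : rfCk (nat_lit 45) (nat_lit 2) (nat_lit 20) (nat_lit 4) (nat_lit 9) (nat_lit 0) (nat_lit 0) TL1 CL0 CL1 = true := by decide +kernel
def st1_0_0 : starCk (nat_lit 20) (nat_lit 4) (nat_lit 1) (nat_lit 2) (nat_lit 3) (nat_lit 9) (nat_lit 256) C1_0 = true := by decide +kernel
def sc1_0 : stCov (nat_lit 2) (nat_lit 9) (Rl.cons (nat_lit 9) (nat_lit 3) Rl.nil) C1_0 = true := by decide +kernel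
def wf1_1 : wfC (nat_lit 20) (nat_lit 4) C1_1 = true := by decide +kernel
def rf1_1 : rfCk (nat_lit 45) (nat_lit 2) (nat_lit 20) (nat_lit 4) (nat_lit 9) (nat_lit 0) (nat_lit 1) TL1 CL0 CL1 = true := by decide +kernel
def st1_1_0 : starCk (nat_lit 20) (nat_lit 4) (nat_lit 1) (nat_lit 2) (nat_lit 2) (nat_lit 7) (nat_lit 16) C1_1 = true := by decide +kernel
def sc1_1 : stCov (nat_lit 1) (nat_lit 7) (Rl.cons (nat_lit 7) (nat_lit 2) Rl.nil) C1_1 = true := by decide +kernel
def wf1_2 : wfC (nat_lit 20) (nat_lit 4) C1_2 = true := by decide +kernel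
def rf1_2 : rfCk (nat_lit 45) (nat_lit 2) (nat_lit 20) (nat_lit 4) (nat_lit 9) (nat_lit 0) (nat_lit 2) TL1 CL0 CL1 = true := by decide +kernel
def st1_2_0 : starCk (nat_lit 20) (nat_lit 4) (nat_lit 1) (nat_lit 2) (nat_lit 2) (nat_lit 4) (nat_lit 1) C1_2 = true := by decide +kernel
def sc1_2 : stCov (nat_lit 0) (nat_lit 4) (Rl.cons (nat_lit 4) (nat_lit 2) Rl.nil) C1_2 = true := by decide +kernel
def wf1_4 : wfC (nat_lit 20) (nat_lit 4) C1_4 = true := by decide +kernel
def rf1_4 : rfCk (nat_lit 45) (nat_lit 2) (nat_lit 20) (nat_lit 4) (nat_lit 9) (nat_lit 0) (nat_lit 4) TL1 CL0 CL1 = true := by decide +kernel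
def st1_4_0 : starCk (nat_lit 20) (nat_lit 4) (nat_lit 1) (nat_lit 2) (nat_lit 8) (nat_lit 21) (nat_lit 16) C1_4 = true := by decide +kernel
def sc1_4 : stCov (nat_lit 1) (nat_lit 21) (Rl.cons (nat_lit 21) (nat_lit 8) Rl.nil) C1_4 = true := by decide +kernel
def ti1_0 : tileCk (nat_lit 20) (nat_lit 4) (nat_lit 2) (nat_lit 1) (nat_lit 14) (nat_lit 11) (nat_lit 6) ZL1_0 CL1 = true := by decide +kernel
def zl1_0 : zlOK (nat_lit 14) ZL1_0 = true := by decide +kernel
def tc1_0 : tiCov (nat_lit 1) (nat_lit 0) ZZ1 C1_0 = true := by decide +kernel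
def tc1_1 : tiCov (nat_lit 1) (nat_lit 1) ZZ1 C1_1 = true := by decide +kernel
def tc1_2 : tiCov (nat_lit 1) (nat_lit 2) ZZ1 C1_2 = true := by decide +kernel
def tc1_4 : tiCov (nat_lit 1) (nat_lit 4) ZZ1 C1_4 = true := by decide +kernel
def wf0_3 : wfC (nat_lit 45) (nat_lit 2) C0_3 = true := by decide +kernel
def pl0_3 : plCk (nat_lit 45) (nat_lit 2) (nat_lit 11) (nat_lit 5) (nat_lit 0) (nat_lit 2) (nat_lit 6) (nat_lit 4) (nat_lit 3) nl0 CL0 = true := by decide +kernel
def sc0_0 : stCov (nat_lit 1) (nat_lit 0) (Rl.cons (nat_lit 0) (nat_lit 18) Rl.nil) C0_0 = true := by decide +kernel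
def sc0_1 : stCov (nat_lit 0) (nat_lit 0) (Rl.cons (nat_lit 0) (nat_lit 52) Rl.nil) C0_1 = true := by decide +kernel
def sc0_2 : stCov (nat_lit 0) (nat_lit 0) (Rl.cons (nat_lit 0) (nat_lit 24) Rl.nil) C0_2 = true := by decide +kernel
def sc0_3 : stCov (nat_lit 0) (nat_lit 0) Rl.nil C0_3 = true := by decide +kernel
def sc0_4 : stCov (nat_lit 0) (nat_lit 0) (Rl.cons (nat_lit 0) (nat_lit 210) Rl.nil) C0_4 = true := by decide +kernel
def sc0_5 : stCov (nat_lit 0) (nat_lit 0) (Rl.cons (nat_lit 0) (nat_lit 32) Rl.nil) C0_5 = true := by decide +kernel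
def tc0_3 : tiCov (nat_lit 1) (nat_lit 3) ZZ0 C0_3 = true := by decide +kernel
def wf1_3 : wfC (nat_lit 20) (nat_lit 4) C1_3 = true := by decide +kernel
def wf1_5 : wfC (nat_lit 20) (nat_lit 4) C1_5 = true := by decide +kernel
def rf1_3 : rfCk (nat_lit 45) (nat_lit 2) (nat_lit 20) (nat_lit 4) (nat_lit 9) (nat_lit 0) (nat_lit 3) TL1 CL0 CL1 = true := by decide +kernel
def rf1_5 : rfCk (nat_lit 45) (nat_lit 2) (nat_lit 20) (nat_lit 4) (nat_lit 9) (nat_lit 0) (nat_lit 5) TL1 CL0 CL1 = true := by decide +kernel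
def sc1_3 : stCov (nat_lit 0) (nat_lit 0) Rl.nil C1_3 = true := by decide +kernel
def sc1_5 : stCov (nat_lit 0) (nat_lit 0) Rl.nil C1_5 = true := by decide +kernel
def tc1_3 : tiCov (nat_lit 1) (nat_lit 3) ZZ1 C1_3 = true := by decide +kernel
def tc1_5 : tiCov (nat_lit 1) (nat_lit 5) ZZ1 C1_5 = true := by decide +kernel
def wf2_0 : wfC (nat_lit 1) (nat_lit 1) C2_0 = true := by decide +kernel
def wf2_1 : wfC (nat_lit 1) (nat_lit 1) C2_1 = true := by decide +kernel
def wf2_2 : wfC (nat_lit 1) (nat_lit 1) C2_2 = true := by decide +kernel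
def wf2_3 : wfC (nat_lit 1) (nat_lit 1) C2_3 = true := by decide +kernel
def wf2_4 : wfC (nat_lit 1) (nat_lit 1) C2_4 = true := by decide +kernel
def wf2_5 : wfC (nat_lit 1) (nat_lit 1) C2_5 = true := by decide +kernel
def rf2_0 : rfCk (nat_lit 20) (nat_lit 4) (nat_lit 1) (nat_lit 1) (nat_lit 9) (nat_lit 0) (nat_lit 0) TL2 CL1 CL2 = true := by decide +kernel
def rf2_1 : rfCk (nat_lit 20) (nat_lit 4) (nat_lit 1) (nat_lit 1) (nat_lit 9) (nat_lit 0) (nat_lit 1) TL2 CL1 CL2 = true := by decide +kernel
def rf2_2 : rfCk (nat_lit 20) (nat_lit 4) (nat_lit 1) (nat_lit 1) (nat_lit 9) (nat_lit 0) (nat_lit 2) TL2 CL1 CL2 = true := by decide +kernel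
def rf2_3 : rfCk (nat_lit 20) (nat_lit 4) (nat_lit 1) (nat_lit 1) (nat_lit 9) (nat_lit 0) (nat_lit 3) TL2 CL1 CL2 = true := by decide +kernel
def rf2_4 : rfCk (nat_lit 20) (nat_lit 4) (nat_lit 1) (nat_lit 1) (nat_lit 9) (nat_lit 0) (nat_lit 4) TL2 CL1 CL2 = true := by decide +kernel
def rf2_5 : rfCk (nat_lit 20) (nat_lit 4) (nat_lit 1) (nat_lit 1) (nat_lit 9) (nat_lit 0) (nat_lit 5) TL2 CL1 CL2 = true := by decide +kernel
def de2_0 : deadCk (nat_lit 1) (nat_lit 1) C2_0 = true := by decide +kernel
def de2_1 : deadCk (nat_lit 1) (nat_lit 1) C2_1 = true := by decide +kernel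
def de2_2 : deadCk (nat_lit 1) (nat_lit 1) C2_2 = true := by decide +kernel
def de2_3 : deadCk (nat_lit 1) (nat_lit 1) C2_3 = true := by decide +kernel
def de2_4 : deadCk (nat_lit 1) (nat_lit 1) C2_4 = true := by decide +kernel
def de2_5 : deadCk (nat_lit 1) (nat_lit 1) C2_5 = true := by decide +kernel

end Pool.Agent.NNr.R11_3_10_14
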